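import Mathlib
import Pool.Agent.L5helper45.HW.Base

/-!
# Nested sums whose small variables leave a gap
-/

set_option autoImplicit false

namespace Pool.Agent.L5helper85.HW

open Finset
open Pool.Agent.L5helper80.MZ (U U_nil U_cons U_app D D_pos H_ge_D H_zero)
open Pool.Agent.H447R2.MZ (H H_nil H_cons H_cons_zero H_cons_succ H_nonneg H_mono)
open Pool.Agent.L5helper5.SP (L23 L23_cons)

/-- nested sums with variables in `(N, M]`, the letter of the smallest variable first -/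
noncomputable def T (M : ℕ) : List ℕ → ℕ → ℝ
  | [], _ => 1
  | (c :: cs), N => ∑ m ∈ Ico N M, (((m + 1 : ℕ) : ℝ) ^ c)⁻¹ * T M cs (m + 1)

lemma T_nil (M N : ℕ) : T M [] N = 1 := by rw [T]

lemma T_cons (M c : ℕ) (cs : List ℕ) (N : ℕ) :
    T M (c :: cs) N = ∑ m ∈ Ico N M, (((m + 1 : ℕ) : ℝ) ^ c)⁻¹ * T M cs (m + 1) := by rw [T]

lemma T_nonneg (M : ℕ) : ∀ (cs : List ℕ) (N : ℕ), 0 ≤ T M cs N
  | [], N => by rw [T_nil]; exact zero_le_one
  | (c :: cs), N => by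
    rw [T_cons]
    exact sum_nonneg fun m _ => mul_nonneg (by positivity) (T_nonneg M cs (m + 1))

/-- the sum in the order of the smallest variable -/
lemma U_rev (M : ℕ) : ∀ (cs : List ℕ) (c : ℕ) (f : ℕ → ℝ), U (c :: cs).reverse f M =
    ∑ m ∈ Ico 0 M, (((m + 1 : ℕ) : ℝ) ^ c)⁻¹ * f m * T M cs (m + 1) := by
  intro cs
  induction cs with
  | nil =>
    intro c f
    rw [List.reverse_cons, List.reverse_nil, List.nil_append, U_cons, range_eq_Ico]
    refine sum_congr rfl fun m _ => ?_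
    rw [U_nil, T_nil, mul_one]
  | cons c' cs ih =>
    intro c f
    rw [List.reverse_cons, U_app, ih]
    have e1 : ∀ m ∈ Ico 0 M, (((m + 1 : ℕ) : ℝ) ^ c')⁻¹ * U [c] f m * T M cs (m + 1) =
        ∑ k ∈ Ico 0 m, (((k + 1 : ℕ) : ℝ) ^ c)⁻¹ * f k * ((((m + 1 : ℕ) : ℝ) ^ c')⁻¹ * T M cs (m + 1)) := by
      intro m _
      rw [U_cons, range_eq_Ico, mul_sum, sum_mul]
      refine sum_congr rfl fun k _ => ?_
      rw [U_nil]; ring
    rw [sum_congr rfl e1, ← sum_Ico_Ico_comm']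
    refine sum_congr rfl fun k _ => ?_
    rw [T_cons, ← mul_sum]

/-- `∑ 1 / (m + 1) ^ 2` -/
noncomputable def kap (M N : ℕ) : ℝ := ∑ m ∈ Ico N M, (((m + 1 : ℕ) : ℝ) ^ 2)⁻¹

lemma kap_nonneg (M N : ℕ) : 0 ≤ kap M N := sum_nonneg fun m _ => by positivity

lemma kap_le (M N : ℕ) (hN : 1 ≤ N) : kap M N * N ≤ 1 := by
  have hN0 : (0 : ℝ) < N := by exact_mod_cast hN
  rcases Nat.lt_or_ge M N with h | h
  · rw [kap, Ico_eq_empty (by omega), sum_empty, zero_mul]; exact zero_le_one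
  have key : ∀ M, N ≤ M → kap M N ≤ 1 / N - 1 / M := by
    intro M hM
    induction M, hM using Nat.le_induction with
    | base => rw [kap, Ico_self, sum_empty]; simp
    | succ M hM ih =>
      rw [kap, sum_Ico_succ_top hM, ← kap]
      have hM0 : (0 : ℝ) < M := by exact_mod_cast (by omega : 0 < M)
      have : (((M + 1 : ℕ) : ℝ) ^ 2)⁻¹ ≤ 1 / M - 1 / ((M + 1 : ℕ) : ℝ) := by
        push_cast
        rw [div_sub_div _ _ hM0.ne' (by positivity), inv_eq_one_div,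
          div_le_div_iff₀ (by positivity) (by positivity)]
        nlinarith
      linarith
  have h1 := key M h
  have h2 : (0 : ℝ) ≤ 1 / M := by positivity
  calc kap M N * N ≤ (1 / N) * N := by
        refine mul_le_mul_of_nonneg_right ?_ hN0.le
        linarith
    _ = 1 := by field_simp

lemma T_swap (M c : ℕ) (cs : List ℕ) (N : ℕ) (hc : 2 ≤ c) :
    T M (2 :: c :: cs) N ≤ T M (c :: 2 :: cs) N := by
  rw [T_cons, T_cons]
  refine sum_le_sum fun a _ => ?_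
  rw [T_cons, T_cons, mul_sum, mul_sum]
  refine sum_le_sum fun b hb => ?_
  rw [mem_Ico] at hb
  obtain ⟨e, rfl⟩ : ∃ e, c = e + 2 := ⟨c - 2, by omega⟩
  have hT := T_nonneg M cs (b + 1)
  rw [← mul_assoc, ← mul_assoc]
  refine mul_le_mul_of_nonneg_right ?_ hT
  rw [← mul_inv, ← mul_inv]
  apply inv_anti₀ (by positivity)
  have h1 : (((a + 1 : ℕ) : ℝ)) ^ e ≤ (((b + 1 : ℕ) : ℝ)) ^ e := by
    gcongr
    omega
  calc ((a + 1 : ℕ) : ℝ) ^ (e + 2) * ((b + 1 : ℕ) : ℝ) ^ 2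
      = ((a + 1 : ℕ) : ℝ) ^ e * (((a + 1 : ℕ) : ℝ) ^ 2 * ((b + 1 : ℕ) : ℝ) ^ 2) := by ring
    _ ≤ ((b + 1 : ℕ) : ℝ) ^ e * (((a + 1 : ℕ) : ℝ) ^ 2 * ((b + 1 : ℕ) : ℝ) ^ 2) := by gcongr
    _ = ((a + 1 : ℕ) : ℝ) ^ 2 * ((b + 1 : ℕ) : ℝ) ^ (e + 2) := by ring

/-- an inequality of the type of Maclaurin -/
lemma key1 (M : ℕ) : ∀ (cs : List ℕ), (∀ c ∈ cs, 2 ≤ c) → ∀ N : ℕ,
    ((cs.length : ℝ) + 1) * T M (2 :: cs) N ≤ kap M N * T M cs N := by
  intro cs
  induction cs with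
  | nil =>
    intro _ N
    rw [T_cons, T_nil, kap]
    simp [T_nil]
  | cons c cs ih =>
    intro h N
    have hc : 2 ≤ c := h c (by simp)
    have ih' := ih fun x hx => h x (by simp [hx])
    have e0 : kap M N * T M (c :: cs) N =
        ∑ m ∈ Ico N M, (((m + 1 : ℕ) : ℝ) ^ c)⁻¹ * T M cs (m + 1) * kap M N := by
      rw [T_cons, mul_comm, sum_mul]
    have e1 : ∀ m ∈ Ico N M, (((m + 1 : ℕ) : ℝ) ^ c)⁻¹ * (((cs.length : ℝ) + 1) * T M (2 :: cs) (m + 1)) +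
        ∑ a ∈ Ico N m, (((a + 1 : ℕ) : ℝ) ^ 2)⁻¹ * ((((m + 1 : ℕ) : ℝ) ^ c)⁻¹ * T M cs (m + 1)) ≤
        (((m + 1 : ℕ) : ℝ) ^ c)⁻¹ * T M cs (m + 1) * kap M N := by
      intro m hm
      rw [mem_Ico] at hm
      have hT := T_nonneg M cs (m + 1)
      have h1 : kap M N = (∑ a ∈ Ico N m, (((a + 1 : ℕ) : ℝ) ^ 2)⁻¹) + (((m + 1 : ℕ) : ℝ) ^ 2)⁻¹ +
          kap M (m + 1) := by
        rw [kap, kap, ← sum_Ico_consecutive _ (by omega : N ≤ m + 1) (by omega : m + 1 ≤ M),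
          sum_Ico_succ_top hm.1]
      have h2 := ih' (m + 1)
      rw [h1, ← sum_mul]
      have p1 : 0 ≤ (((m + 1 : ℕ) : ℝ) ^ 2)⁻¹ := by positivity
      have p2 : 0 ≤ (((m + 1 : ℕ) : ℝ) ^ c)⁻¹ := by positivity
      have h3 := mul_le_mul_of_nonneg_left h2 p2
      have h4 : 0 ≤ (((m + 1 : ℕ) : ℝ) ^ c)⁻¹ * T M cs (m + 1) * (((m + 1 : ℕ) : ℝ) ^ 2)⁻¹ := by positivity
      calc (((m + 1 : ℕ) : ℝ) ^ c)⁻¹ * (((cs.length : ℝ) + 1) * T M (2 :: cs) (m + 1)) +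
            (∑ a ∈ Ico N m, (((a + 1 : ℕ) : ℝ) ^ 2)⁻¹) * ((((m + 1 : ℕ) : ℝ) ^ c)⁻¹ * T M cs (m + 1))
          ≤ (((m + 1 : ℕ) : ℝ) ^ c)⁻¹ * (kap M (m + 1) * T M cs (m + 1)) +
            (∑ a ∈ Ico N m, (((a + 1 : ℕ) : ℝ) ^ 2)⁻¹) * ((((m + 1 : ℕ) : ℝ) ^ c)⁻¹ * T M cs (m + 1)) +
            (((m + 1 : ℕ) : ℝ) ^ c)⁻¹ * T M cs (m + 1) * (((m + 1 : ℕ) : ℝ) ^ 2)⁻¹ := by linarith
        _ = _ := by ring
    have e2 := sum_le_sum e1
    rw [← e0, sum_add_distrib, ← sum_Ico_Ico_comm'] at e2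
    have e3 : ∑ m ∈ Ico N M, (((m + 1 : ℕ) : ℝ) ^ c)⁻¹ * (((cs.length : ℝ) + 1) * T M (2 :: cs) (m + 1)) =
        ((cs.length : ℝ) + 1) * T M (c :: 2 :: cs) N := by
      rw [T_cons M c, mul_sum]
      refine sum_congr rfl fun m _ => by ring
    have e4 : ∑ a ∈ Ico N M, ∑ m ∈ Ico (a + 1) M,
        (((a + 1 : ℕ) : ℝ) ^ 2)⁻¹ * ((((m + 1 : ℕ) : ℝ) ^ c)⁻¹ * T M cs (m + 1)) = T M (2 :: c :: cs) N := by
      rw [T_cons M 2]
      refine sum_congr rfl fun a _ => ?_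
      rw [T_cons M c, mul_sum]
    rw [e3, e4] at e2
    have e5 := mul_le_mul_of_nonneg_left (T_swap M c cs N hc)
      (by positivity : (0 : ℝ) ≤ (cs.length : ℝ) + 1)
    rw [List.length_cons]
    push_cast
    linarith

lemma key2 (M c : ℕ) (cs : List ℕ) (hc : 2 ≤ c) (h : ∀ c ∈ cs, 2 ≤ c) (N : ℕ) :
    ((cs.length : ℝ) + 1) * T M (c :: cs) N * ((N + 1 : ℕ) : ℝ) ^ (c - 2) ≤ kap M N * T M cs N := by
  refine le_trans ?_ (key1 M cs h N)
  rw [mul_assoc]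
  refine mul_le_mul_of_nonneg_left ?_ (by positivity)
  rw [T_cons, T_cons, sum_mul]
  refine sum_le_sum fun m hm => ?_
  rw [mem_Ico] at hm
  obtain ⟨e, rfl⟩ : ∃ e, c = e + 2 := ⟨c - 2, by omega⟩
  have hT := T_nonneg M cs (m + 1)
  rw [Nat.add_sub_cancel, mul_right_comm]
  refine mul_le_mul_of_nonneg_right ?_ hT
  have h1 : ((N + 1 : ℕ) : ℝ) ^ e ≤ ((m + 1 : ℕ) : ℝ) ^ e := by
    gcongr
    exact hm.1
  rw [pow_add, mul_inv]
  have h2 : (((m + 1 : ℕ) : ℝ) ^ e)⁻¹ * ((N + 1 : ℕ) : ℝ) ^ e ≤ 1 := by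
    rw [inv_mul_le_iff₀ (by positivity), mul_one]
    exact h1
  have h3 : 0 ≤ (((m + 1 : ℕ) : ℝ) ^ 2)⁻¹ := by positivity
  calc (((m + 1 : ℕ) : ℝ) ^ e)⁻¹ * (((m + 1 : ℕ) : ℝ) ^ 2)⁻¹ * ((N + 1 : ℕ) : ℝ) ^ e
      = ((((m + 1 : ℕ) : ℝ) ^ e)⁻¹ * ((N + 1 : ℕ) : ℝ) ^ e) * (((m + 1 : ℕ) : ℝ) ^ 2)⁻¹ := by ring
    _ ≤ 1 * (((m + 1 : ℕ) : ℝ) ^ 2)⁻¹ := mul_le_mul_of_nonneg_right h2 h3
    _ = _ := one_mul _

lemma T_step (M c : ℕ) (cs : List ℕ) (hc : 2 ≤ c) (h : ∀ c ∈ cs, 2 ≤ c) (N : ℕ) :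
    ((cs.length : ℝ) + 1) * T M (c :: cs) (N + 1) ≤ ((N : ℝ) + 1) * T M (c :: cs) N := by
  rcases Nat.lt_or_ge N M with hN | hN
  · have h1 : (((N + 1 : ℕ) : ℝ) ^ c)⁻¹ * T M cs (N + 1) ≤ T M (c :: cs) N := by
      rw [T_cons]
      exact single_le_sum (f := fun m => (((m + 1 : ℕ) : ℝ) ^ c)⁻¹ * T M cs (m + 1))
        (fun m _ => mul_nonneg (by positivity) (T_nonneg M cs (m + 1))) (mem_Ico.2 ⟨le_rfl, hN⟩)
    have h2 := key2 M c cs hc h (N + 1)
    have h3 := kap_le M (N + 1) (by omega)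
    have hT := T_nonneg M cs (N + 1)
    have hT2 := T_nonneg M (c :: cs) (N + 1)
    obtain ⟨e, rfl⟩ : ∃ e, c = e + 2 := ⟨c - 2, by omega⟩
    rw [Nat.add_sub_cancel] at h2
    have hp : (0 : ℝ) < ((N + 1 : ℕ) : ℝ) := by positivity
    have h4 : ((N + 1 : ℕ) : ℝ) ^ e ≤ ((N + 1 + 1 : ℕ) : ℝ) ^ e := by
      gcongr
      omega
    have h5 : ((cs.length : ℝ) + 1) * T M ((e + 2) :: cs) (N + 1) * ((N + 1 : ℕ) : ℝ) ^ e ≤
        kap M (N + 1) * T M cs (N + 1) := by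
      refine le_trans ?_ h2
      exact mul_le_mul_of_nonneg_left h4 (by positivity)
    have h6 : ((cs.length : ℝ) + 1) * T M ((e + 2) :: cs) (N + 1) * ((N + 1 : ℕ) : ℝ) ^ (e + 1) ≤
        T M cs (N + 1) := by
      calc ((cs.length : ℝ) + 1) * T M ((e + 2) :: cs) (N + 1) * ((N + 1 : ℕ) : ℝ) ^ (e + 1)
          = (((cs.length : ℝ) + 1) * T M ((e + 2) :: cs) (N + 1) * ((N + 1 : ℕ) : ℝ) ^ e) *
            ((N + 1 : ℕ) : ℝ) := by ring
        _ ≤ (kap M (N + 1) * T M cs (N + 1)) * ((N + 1 : ℕ) : ℝ) :=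
            mul_le_mul_of_nonneg_right h5 hp.le
        _ = (kap M (N + 1) * ((N + 1 : ℕ) : ℝ)) * T M cs (N + 1) := by ring
        _ ≤ 1 * T M cs (N + 1) := mul_le_mul_of_nonneg_right h3 hT
        _ = _ := one_mul _
    have h7 : T M cs (N + 1) ≤ T M ((e + 2) :: cs) N * ((N + 1 : ℕ) : ℝ) ^ (e + 2) := by
      rw [inv_mul_le_iff₀ (by positivity)] at h1
      linarith
    have h8 := h6.trans h7
    have h9 : ((cs.length : ℝ) + 1) * T M ((e + 2) :: cs) (N + 1) * ((N + 1 : ℕ) : ℝ) ^ (e + 1) ≤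
        (((N : ℝ) + 1) * T M ((e + 2) :: cs) N) * ((N + 1 : ℕ) : ℝ) ^ (e + 1) := by
      refine h8.trans (le_of_eq ?_)
      push_cast
      ring
    exact le_of_mul_le_mul_right h9 (by positivity)
  · rw [T_cons, T_cons, Ico_eq_empty (by omega), Ico_eq_empty (by omega), sum_empty, mul_zero, mul_zero]

lemma T_steps (M c : ℕ) (cs : List ℕ) (hc : 2 ≤ c) (h : ∀ c ∈ cs, 2 ≤ c) (q : ℕ) : ∀ d : ℕ,
    ((cs.length : ℝ) + 1) ^ d * T M (c :: cs) (q + d) ≤ ((q + d : ℕ) : ℝ) ^ d * T M (c :: cs) q := by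
  intro d
  induction d with
  | zero => simp
  | succ d ih =>
    have h1 := T_step M c cs hc h (q + d)
    have hT := T_nonneg M (c :: cs) q
    have hT2 := T_nonneg M (c :: cs) (q + d)
    calc ((cs.length : ℝ) + 1) ^ (d + 1) * T M (c :: cs) (q + (d + 1))
        = ((cs.length : ℝ) + 1) ^ d * (((cs.length : ℝ) + 1) * T M (c :: cs) (q + d + 1)) := by
          rw [← add_assoc]; ring
      _ ≤ ((cs.length : ℝ) + 1) ^ d * ((((q + d : ℕ) : ℝ) + 1) * T M (c :: cs) (q + d)) :=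
          mul_le_mul_of_nonneg_left h1 (by positivity)
      _ = (((q + d : ℕ) : ℝ) + 1) * (((cs.length : ℝ) + 1) ^ d * T M (c :: cs) (q + d)) := by ring
      _ ≤ (((q + d : ℕ) : ℝ) + 1) * (((q + d : ℕ) : ℝ) ^ d * T M (c :: cs) q) :=
          mul_le_mul_of_nonneg_left ih (by positivity)
      _ ≤ (((q + d : ℕ) : ℝ) + 1) * ((((q + d : ℕ) : ℝ) + 1) ^ d * T M (c :: cs) q) := by
          gcongr
          linarith
      _ = ((q + (d + 1) : ℕ) : ℝ) ^ (d + 1) * T M (c :: cs) q := by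
          push_cast
          ring

lemma HD_le : ∀ (s : List ℕ) (N : ℕ), H s N * D s ≤ ((N.choose s.length : ℕ) : ℝ) := by
  intro s
  induction s with
  | nil => intro N; rw [H_nil, D]; simp
  | cons a s ih =>
    intro N
    induction N with
    | zero => rw [H_cons_zero, zero_mul]; positivity
    | succ N ihN =>
      have e0 : (((N + 1).choose (s.length + 1) : ℕ) : ℝ) =
          ((N.choose s.length : ℕ) : ℝ) + ((N.choose (s.length + 1) : ℕ) : ℝ) := by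
        rw [Nat.choose_succ_succ, Nat.cast_add]
      rw [H_cons_succ, List.length_cons, e0, add_mul]
      rw [List.length_cons] at ihN
      have h1 : (((N + 1 : ℕ) : ℝ) ^ a)⁻¹ * H s N * D (a :: s) ≤ ((N.choose s.length : ℕ) : ℝ) := by
        rcases Nat.lt_or_ge N s.length with h | h
        · rw [H_zero s N h, mul_zero, zero_mul]; positivity
        · rw [D]
          have h2 : (((N + 1 : ℕ) : ℝ) ^ a)⁻¹ * ((s.length + 1 : ℕ) : ℝ) ^ a ≤ 1 := by
            rw [inv_mul_le_iff₀ (by positivity), mul_one]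
            gcongr
          have h3 : 0 ≤ H s N * D s := mul_nonneg (H_nonneg s N) (D_pos s).le
          calc (((N + 1 : ℕ) : ℝ) ^ a)⁻¹ * H s N * (((s.length + 1 : ℕ) : ℝ) ^ a * D s)
              = ((((N + 1 : ℕ) : ℝ) ^ a)⁻¹ * ((s.length + 1 : ℕ) : ℝ) ^ a) * (H s N * D s) := by ring
            _ ≤ 1 * (H s N * D s) := mul_le_mul_of_nonneg_right h2 h3
            _ = H s N * D s := one_mul _
            _ ≤ _ := ih N
      linarith

lemma HD_le' (s : List ℕ) (N : ℕ) (h : s.length ≤ N) : H s N * D s ≤ (N : ℝ) ^ (N - s.length) := by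
  refine (HD_le s N).trans ?_
  rw [← Nat.choose_symm h]
  exact_mod_cast Nat.choose_le_pow N (N - s.length)

/-- nested sum where the smallest variable of the upper part is larger than `N` -/
noncomputable def A (M c : ℕ) (cs u : List ℕ) (N : ℕ) : ℝ :=
  ∑ m ∈ Ico N M, (((m + 1 : ℕ) : ℝ) ^ c)⁻¹ * H u m * T M cs (m + 1)

lemma H_diff (b : ℕ) (u : List ℕ) (N m : ℕ) (h : N ≤ m) :
    H (b :: u) m = H (b :: u) N + ∑ j ∈ Ico N m, (((j + 1 : ℕ) : ℝ) ^ b)⁻¹ * H u j := by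
  rw [H_cons, H_cons, range_eq_Ico, range_eq_Ico, sum_Ico_consecutive _ (Nat.zero_le N) h]

lemma A_cons (M c : ℕ) (cs : List ℕ) (b : ℕ) (u : List ℕ) (N : ℕ) :
    A M c cs (b :: u) N = H (b :: u) N * T M (c :: cs) N + A M b (c :: cs) u N := by
  have e1 : ∀ m ∈ Ico N M, (((m + 1 : ℕ) : ℝ) ^ c)⁻¹ * H (b :: u) m * T M cs (m + 1) =
      H (b :: u) N * ((((m + 1 : ℕ) : ℝ) ^ c)⁻¹ * T M cs (m + 1)) +
        ∑ j ∈ Ico N m, (((j + 1 : ℕ) : ℝ) ^ b)⁻¹ * H u j * ((((m + 1 : ℕ) : ℝ) ^ c)⁻¹ * T M cs (m + 1)) := by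
    intro m hm
    rw [mem_Ico] at hm
    rw [H_diff b u N m hm.1, ← sum_mul]
    ring
  rw [A, sum_congr rfl e1, sum_add_distrib, ← mul_sum, ← T_cons, ← sum_Ico_Ico_comm', A]
  congr 1
  refine sum_congr rfl fun j _ => ?_
  rw [T_cons, ← mul_sum]

lemma A_nil (M c : ℕ) (cs : List ℕ) (N : ℕ) : A M c cs [] N = T M (c :: cs) N := by
  rw [A, T_cons]
  refine sum_congr rfl fun m _ => ?_
  rw [H_nil, mul_one]

lemma A_le (M l : ℕ) (hl : 1 ≤ l) : ∀ (u : List ℕ), L23 u → 2 * u.length ^ 3 ≤ l → ∀ (c : ℕ) (cs : List ℕ),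
    2 ≤ c → (∀ x ∈ cs, 2 ≤ x) → l ≤ cs.length + 1 → ∀ N : ℕ, u.length ≤ N →
      A M c cs u N * D u ≤ 2 * (N : ℝ) ^ (N - u.length) * T M (c :: cs) N := by
  intro u
  induction u with
  | nil =>
    intro _ _ c cs hc hcs hlc N _
    rw [A_nil, D, mul_one, List.length_nil, Nat.sub_zero]
    have hT := T_nonneg M (c :: cs) N
    have h1 : (1 : ℝ) ≤ (N : ℝ) ^ N := by
      rcases Nat.eq_zero_or_pos N with rfl | h
      · simp
      · exact one_le_pow₀ (by exact_mod_cast h)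
    nlinarith
  | cons b u ih =>
    intro hu hq c cs hc hcs hlc N hN
    rw [L23_cons] at hu
    rw [List.length_cons] at hN hq
    have hb : 2 ≤ b := by omega
    have hb3 : b ≤ 3 := by omega
    have hq' : 2 * u.length ^ 3 ≤ l := by
      refine le_trans ?_ hq
      gcongr
      omega
    have hcs' : ∀ x ∈ c :: cs, 2 ≤ x := by
      intro x hx
      rcases List.mem_cons.1 hx with rfl | hx
      · exact hc
      · exact hcs x hx
    have h1 := ih hu.2 hq' b (c :: cs) hb hcs' (by rw [List.length_cons]; omega) N (by omega)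
    have h2 := HD_le' (b :: u) N (by rw [List.length_cons]; exact hN)
    rw [List.length_cons] at h2
    have hT := T_nonneg M (c :: cs) N
    have hTb := T_nonneg M (b :: c :: cs) N
    have h3 := key2 M b (c :: cs) hb hcs' N
    have h4 := kap_le M N (by omega)
    have hN0 : (0 : ℝ) < N := by exact_mod_cast (by omega : 0 < N)
    have hl0 : (0 : ℝ) < l := by exact_mod_cast hl
    -- the letter `b`
    have h5 : (l : ℝ) * T M (b :: c :: cs) N ≤ kap M N * T M (c :: cs) N := by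
      refine le_trans ?_ h3
      have i1 : (1 : ℝ) ≤ ((N + 1 : ℕ) : ℝ) ^ (b - 2) := one_le_pow₀ (by push_cast; linarith)
      have i2 : (l : ℝ) ≤ ((c :: cs).length : ℝ) + 1 := by
        rw [List.length_cons]
        exact_mod_cast (by omega : l ≤ cs.length + 1 + 1)
      calc (l : ℝ) * T M (b :: c :: cs) N ≤ (((c :: cs).length : ℝ) + 1) * T M (b :: c :: cs) N :=
            mul_le_mul_of_nonneg_right i2 hTb
        _ = (((c :: cs).length : ℝ) + 1) * T M (b :: c :: cs) N * 1 := by ring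
        _ ≤ _ := mul_le_mul_of_nonneg_left i1 (by positivity)
    have h6 : (l : ℝ) * (N * T M (b :: c :: cs) N) ≤ T M (c :: cs) N := by
      calc (l : ℝ) * (N * T M (b :: c :: cs) N) = (l * T M (b :: c :: cs) N) * N := by ring
        _ ≤ (kap M N * T M (c :: cs) N) * N := mul_le_mul_of_nonneg_right h5 hN0.le
        _ = (kap M N * N) * T M (c :: cs) N := by ring
        _ ≤ 1 * T M (c :: cs) N := mul_le_mul_of_nonneg_right h4 hT
        _ = _ := one_mul _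
    have h7 : 2 * ((u.length + 1 : ℕ) : ℝ) ^ b ≤ l := by
      have i1 : ((u.length + 1 : ℕ) : ℝ) ^ b ≤ ((u.length + 1 : ℕ) : ℝ) ^ 3 :=
        pow_le_pow_right₀ (by push_cast; linarith [(Nat.cast_nonneg u.length : (0 : ℝ) ≤ u.length)]) hb3
      have i2 : (2 : ℝ) * ((u.length + 1 : ℕ) : ℝ) ^ 3 ≤ l := by exact_mod_cast hq
      linarith
    have h8 : 2 * ((u.length + 1 : ℕ) : ℝ) ^ b * (N * T M (b :: c :: cs) N) ≤ T M (c :: cs) N :=
      (mul_le_mul_of_nonneg_right h7 (by positivity)).trans h6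
    have e1 : (N : ℝ) ^ (N - u.length) = N ^ (N - (u.length + 1)) * N := by
      rw [← pow_succ]
      congr 1
      omega
    rw [A_cons, add_mul]
    have h9 : H (b :: u) N * T M (c :: cs) N * D (b :: u) ≤
        (N : ℝ) ^ (N - (u.length + 1)) * T M (c :: cs) N := by
      calc H (b :: u) N * T M (c :: cs) N * D (b :: u)
          = (H (b :: u) N * D (b :: u)) * T M (c :: cs) N := by ring
        _ ≤ _ := mul_le_mul_of_nonneg_right h2 hT
    have h10 : A M b (c :: cs) u N * D (b :: u) ≤ (N : ℝ) ^ (N - (u.length + 1)) * T M (c :: cs) N := by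
      have hp : (0 : ℝ) < ((u.length + 1 : ℕ) : ℝ) ^ b := by positivity
      have hp2 : (0 : ℝ) < (N : ℝ) ^ (N - (u.length + 1)) := by positivity
      calc A M b (c :: cs) u N * D (b :: u)
          = ((u.length + 1 : ℕ) : ℝ) ^ b * (A M b (c :: cs) u N * D u) := by rw [D]; ring
        _ ≤ ((u.length + 1 : ℕ) : ℝ) ^ b * (2 * (N : ℝ) ^ (N - u.length) * T M (b :: c :: cs) N) :=
            mul_le_mul_of_nonneg_left h1 hp.le
        _ = (N : ℝ) ^ (N - (u.length + 1)) *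
            (2 * ((u.length + 1 : ℕ) : ℝ) ^ b * (N * T M (b :: c :: cs) N)) := by rw [e1]; ring
        _ ≤ _ := mul_le_mul_of_nonneg_left h8 hp2.le
    rw [List.length_cons]
    linarith

lemma A_eq (M c : ℕ) (cs u : List ℕ) (N : ℕ) :
    U (c :: cs).reverse (fun n => if N ≤ n then H u n else 0) M = A M c cs u N := by
  rw [U_rev, A]
  have e1 : ∀ m ∈ Ico 0 M, (((m + 1 : ℕ) : ℝ) ^ c)⁻¹ * (if N ≤ m then H u m else 0) * T M cs (m + 1) =
      if N ≤ m then (((m + 1 : ℕ) : ℝ) ^ c)⁻¹ * H u m * T M cs (m + 1) else 0 := by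
    intro m _
    split_ifs <;> ring
  rw [sum_congr rfl e1, ← sum_filter]
  refine sum_congr ?_ fun _ _ => rfl
  ext m
  simp only [mem_filter, mem_Ico]
  omega

lemma A_zero (M c : ℕ) (cs u : List ℕ) : U (c :: cs).reverse (H u) M = A M c cs u 0 := by
  rw [U_rev, A]

lemma A_anti (M c : ℕ) (cs u : List ℕ) (N : ℕ) : A M c cs u N ≤ A M c cs u 0 := by
  rw [A, A]
  refine sum_le_sum_of_subset_of_nonneg ?_ fun m _ _ =>
    mul_nonneg (mul_nonneg (by positivity) (H_nonneg u m)) (T_nonneg M cs (m + 1))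
  intro m hm
  rw [mem_Ico] at hm ⊢
  omega

lemma A_ge (M c : ℕ) (cs u : List ℕ) (N : ℕ) : T M (c :: cs) N * H u N ≤ A M c cs u N := by
  rw [A, T_cons, sum_mul]
  refine sum_le_sum fun m hm => ?_
  rw [mem_Ico] at hm
  have h1 := H_mono u hm.1
  have h2 := T_nonneg M cs (m + 1)
  calc (((m + 1 : ℕ) : ℝ) ^ c)⁻¹ * T M cs (m + 1) * H u N
      = (((m + 1 : ℕ) : ℝ) ^ c)⁻¹ * T M cs (m + 1) * H u N := rfl
    _ ≤ (((m + 1 : ℕ) : ℝ) ^ c)⁻¹ * T M cs (m + 1) * H u m := by gcongr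
    _ = _ := by ring

/-- LEMMA B (Gap.lean) -/
theorem gap (p u : List ℕ) (hp : L23 p) (hu : L23 u) (d : ℕ) (hl : 1 ≤ p.length) (h : 2 * u.length ^ 3 ≤ p.length) (M : ℕ) :
    U p (fun n => if u.length + d ≤ n then H u n else 0) M ≤
      2 * (((u.length + d : ℕ) : ℝ) ^ 2 / p.length) ^ d * U p (H u) M := by
  obtain ⟨c, cs, hcs⟩ : ∃ c cs, p.reverse = c :: cs := by
    cases hr : p.reverse with
    | nil =>
      rw [List.reverse_eq_nil_iff] at hr
      rw [hr] at hl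
      simp at hl
    | cons c cs => exact ⟨c, cs, rfl⟩
  have hp' : p = (c :: cs).reverse := by rw [← hcs, List.reverse_reverse]
  have hlen : p.length = cs.length + 1 := by rw [hp', List.length_reverse, List.length_cons]
  have hmem : ∀ x ∈ c :: cs, 2 ≤ x := by
    intro x hx
    have : x ∈ p := by rw [hp', List.mem_reverse]; exact hx
    have := hp x this
    omega
  have hc : 2 ≤ c := hmem c (by simp)
  have hcs2 : ∀ x ∈ cs, 2 ≤ x := fun x hx => hmem x (by simp [hx])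
  have h1 := A_le M p.length hl u hu h c cs hc hcs2 hlen.le (u.length + d) (by omega)
  have h2 := T_steps M c cs hc hcs2 u.length d
  have h3 := H_ge_D u u.length le_rfl
  have h4 := A_ge M c cs u u.length
  have h5 := A_anti M c cs u u.length
  have hT := T_nonneg M (c :: cs) u.length
  have hD := D_pos u
  have e1 : U p (fun n => if u.length + d ≤ n then H u n else 0) M = A M c cs u (u.length + d) := by
    rw [hp']
    exact A_eq M c cs u (u.length + d)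
  have e2 : U p (H u) M = A M c cs u 0 := by
    rw [hp']
    exact A_zero M c cs u
  rw [e1, e2, hlen]
  rw [Nat.add_sub_cancel_left] at h1
  set n : ℝ := ((u.length + d : ℕ) : ℝ) with hn
  have hn0 : 0 ≤ n := by positivity
  have hL : (0 : ℝ) < ((cs.length + 1 : ℕ) : ℝ) := by positivity
  have hcast : ((cs.length + 1 : ℕ) : ℝ) = (cs.length : ℝ) + 1 := by push_cast; ring
  refine le_of_mul_le_mul_right ?_ hD
  have h6 : T M (c :: cs) (u.length + d) ≤ (n / ((cs.length + 1 : ℕ) : ℝ)) ^ d * T M (c :: cs) u.length := by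
    rw [div_pow, div_mul_eq_mul_div, le_div_iff₀ (by positivity), hcast]
    linarith
  have h7 : T M (c :: cs) u.length ≤ A M c cs u 0 * D u := by
    calc T M (c :: cs) u.length = T M (c :: cs) u.length * 1 := by ring
      _ ≤ T M (c :: cs) u.length * (H u u.length * D u) := mul_le_mul_of_nonneg_left h3 hT
      _ = (T M (c :: cs) u.length * H u u.length) * D u := by ring
      _ ≤ A M c cs u 0 * D u := mul_le_mul_of_nonneg_right (h4.trans h5) hD.le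
  calc A M c cs u (u.length + d) * D u ≤ 2 * n ^ d * T M (c :: cs) (u.length + d) := h1
    _ ≤ 2 * n ^ d * ((n / ((cs.length + 1 : ℕ) : ℝ)) ^ d * T M (c :: cs) u.length) :=
        mul_le_mul_of_nonneg_left h6 (by positivity)
    _ ≤ 2 * n ^ d * ((n / ((cs.length + 1 : ℕ) : ℝ)) ^ d * (A M c cs u 0 * D u)) := by
        gcongr
    _ = 2 * (n ^ 2 / ((cs.length + 1 : ℕ) : ℝ)) ^ d * A M c cs u 0 * D u := by
        rw [div_pow, div_pow, ← pow_mul, pow_mul' n 2 d, sq (n ^ d)]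
        ring

end Pool.Agent.L5helper85.HW
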