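import Mathlib
import Pool.Agent.L5helper5.SP.Count

/-!
# Words avoiding a block at many places
-/

set_option autoImplicit false

namespace Pool.Agent.L5helper85.HW

open Pool.Agent.L5helper5.SP (L23 Wd mem_Wd card_Wd Wd_succ L23_cons)

/-- there is a root `ρ` of `ρ ^ 3 = ρ + 1` between `1` and `√2` -/
lemma exists_rho : ∃ ρ : ℝ, 1 < ρ ∧ ρ ^ 3 = ρ + 1 ∧ ρ ^ 4 ≤ 4 := by
  have hc : ContinuousOn (fun x : ℝ => x ^ 3 - x - 1) (Set.Icc 1 (1.4 : ℝ)) := by fun_prop
  have h := intermediate_value_Icc (by norm_num : (1 : ℝ) ≤ 1.4) hc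
  have h0 : (0 : ℝ) ∈ Set.Icc ((fun x : ℝ => x ^ 3 - x - 1) 1) ((fun x : ℝ => x ^ 3 - x - 1) 1.4) := by
    constructor <;> norm_num
  obtain ⟨ρ, hρ, hρ0⟩ := h h0
  simp only at hρ0
  have h1 : ρ ≠ 1 := by
    rintro rfl
    norm_num at hρ0
  refine ⟨ρ, lt_of_le_of_ne hρ.1 (Ne.symm h1), by linarith, ?_⟩
  have h2 : ρ ≤ 1.4 := hρ.2
  have h3 : 1 ≤ ρ := hρ.1
  calc ρ ^ 4 ≤ 1.4 ^ 4 := by gcongr
    _ ≤ 4 := by norm_num

lemma card_le {ρ : ℝ} (h1 : 1 < ρ) (h3 : ρ ^ 3 = ρ + 1) (k : ℕ) : ((Wd k).card : ℝ) ≤ ρ ^ k := by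
  induction k using Nat.strong_induction_on with
  | _ k ih =>
    match k, ih with
    | 0, _ => rw [Wd, Finset.card_singleton]; norm_num
    | 1, _ => rw [Wd, Finset.card_empty, pow_one, Nat.cast_zero]; linarith
    | 2, _ => rw [Wd, Finset.card_singleton, Nat.cast_one]; nlinarith
    | (k + 3), ih =>
      rw [card_Wd]
      push_cast
      have e1 := ih (k + 1) (by omega)
      have e2 := ih k (by omega)
      have e3 : ρ ^ (k + 3) = ρ ^ (k + 1) + ρ ^ k := by
        rw [pow_add, h3, pow_succ]; ring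
      rw [e3]
      linarith

lemma card_ge {ρ : ℝ} (h1 : 1 < ρ) (h3 : ρ ^ 3 = ρ + 1) (k : ℕ) (hk : 2 ≤ k) :
    ρ ^ k ≤ ρ ^ 4 * ((Wd k).card : ℝ) := by
  induction k using Nat.strong_induction_on with
  | _ k ih =>
    match k, ih with
    | 0, _ => omega
    | 1, _ => omega
    | 2, _ =>
      rw [Wd, Finset.card_singleton]
      norm_num
      exact pow_le_pow_right₀ h1.le (by norm_num)
    | 3, _ =>
      rw [card_Wd 0, Wd, Wd]
      norm_num
      exact pow_le_pow_right₀ h1.le (by norm_num)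
    | 4, _ =>
      rw [card_Wd 1, Wd, Wd]
      norm_num
    | (k + 5), ih =>
      have e1 := ih (k + 3) (by omega) (by omega)
      have e2 := ih (k + 2) (by omega) (by omega)
      rw [card_Wd (k + 2)]
      push_cast
      have e3 : ρ ^ (k + 5) = ρ ^ (k + 3) + ρ ^ (k + 2) := by
        have : ρ ^ (k + 5) = ρ ^ (k + 2) * ρ ^ 3 := by ring
        rw [this, h3]; ring
      rw [e3]
      linarith

/-- the number of the words of weight `k + 3` with a property, by the first letter -/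
lemma card_split (k : ℕ) (Q : List ℕ → Prop) [DecidablePred Q] :
    ((Wd (k + 3)).filter Q).card =
      ((Wd (k + 1)).filter fun w => Q (2 :: w)).card + ((Wd k).filter fun w => Q (3 :: w)).card := by
  rw [Wd_succ, Finset.filter_union, Finset.card_union_of_disjoint, Finset.filter_image,
    Finset.filter_image, Finset.card_image_of_injective _ List.cons_injective,
    Finset.card_image_of_injective _ List.cons_injective]
  rw [Finset.disjoint_left]
  intro w h1 h2
  rw [Finset.mem_filter, Finset.mem_image] at h1 h2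
  obtain ⟨v, -, rfl⟩ := h1.1
  obtain ⟨v', -, h3⟩ := h2.1
  have := (List.cons.inj h3).1
  omega

/-- the weight of the blocks of length `L` with the property `R` -/
noncomputable def wt (ρ : ℝ) : ℕ → (List ℕ → Prop) → ℝ
  | 0, R => by classical exact if R [] then 1 else 0
  | L + 1, R => (ρ ^ 2)⁻¹ * wt ρ L (fun b => R (2 :: b)) + (ρ ^ 3)⁻¹ * wt ρ L (fun b => R (3 :: b))

lemma wt_sum {ρ : ℝ} (h1 : 1 < ρ) (h3 : ρ ^ 3 = ρ + 1) : (ρ ^ 2)⁻¹ + (ρ ^ 3)⁻¹ = 1 := by
  have : ρ ≠ 0 := by linarith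
  field_simp
  nlinarith

lemma wt_nonneg {ρ : ℝ} (h1 : 1 < ρ) : ∀ (L : ℕ) (R : List ℕ → Prop), 0 ≤ wt ρ L R := by
  intro L
  induction L with
  | zero => intro R; unfold wt; split_ifs <;> norm_num
  | succ L ih =>
    intro R
    unfold wt
    have := ih (fun b => R (2 :: b))
    have := ih (fun b => R (3 :: b))
    positivity

lemma wt_le {ρ : ℝ} (h1 : 1 < ρ) (h3 : ρ ^ 3 = ρ + 1) : ∀ (L : ℕ) (R : List ℕ → Prop),
    wt ρ L R ≤ 1 := by
  intro L
  induction L with
  | zero => intro R; unfold wt; split_ifs <;> norm_num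
  | succ L ih =>
    intro R
    unfold wt
    have e1 := ih (fun b => R (2 :: b))
    have e2 := ih (fun b => R (3 :: b))
    have e3 := wt_sum h1 h3
    have p2 : 0 < (ρ ^ 2)⁻¹ := by positivity
    have p3 : 0 < (ρ ^ 3)⁻¹ := by positivity
    nlinarith

lemma wt_ne {ρ : ℝ} (h1 : 1 < ρ) (h3 : ρ ^ 3 = ρ + 1) : ∀ (X : List ℕ), L23 X →
    wt ρ X.length (fun b => b ≠ X) ≤ 1 - (ρ ^ X.sum)⁻¹ := by
  intro X
  induction X with
  | nil => intro _; unfold wt; simp
  | cons c X ih =>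
    intro hX
    rw [L23_cons] at hX
    have e1 := ih hX.2
    have e3 := wt_sum h1 h3
    have p2 : 0 < (ρ ^ 2)⁻¹ := by positivity
    have p3 : 0 < (ρ ^ 3)⁻¹ := by positivity
    rw [List.length_cons, wt, List.sum_cons]
    rcases hX.1 with rfl | rfl
    · have e4 : (fun b : List ℕ => 2 :: b ≠ 2 :: X) = fun b => b ≠ X := by
        funext b; simp
      have e5 := wt_le h1 h3 X.length (fun b => 3 :: b ≠ 2 :: X)
      rw [e4, pow_add, mul_inv]
      nlinarith
    · have e4 : (fun b : List ℕ => 3 :: b ≠ 3 :: X) = fun b => b ≠ X := by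
        funext b; simp
      have e5 := wt_le h1 h3 X.length (fun b => 2 :: b ≠ 3 :: X)
      rw [e4, pow_add, mul_inv]
      nlinarith

open Classical in
/-- words whose first block has the property `R` and the rest the property `Q` -/
lemma block {ρ : ℝ} (h1 : 1 < ρ) (Q : List ℕ → Prop) (K : ℕ) (B : ℝ)
    (hQ : ∀ k, K ≤ k → (((Wd k).filter Q).card : ℝ) ≤ ρ ^ k * B) :
    ∀ (L : ℕ) (R : List ℕ → Prop) (k : ℕ), 3 * L + K ≤ k →
      (((Wd k).filter fun w => R (w.take L) ∧ Q (w.drop L)).card : ℝ) ≤ ρ ^ k * (wt ρ L R * B) := by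
  intro L
  induction L with
  | zero =>
    intro R k hk
    unfold wt
    by_cases hR : R []
    · simp only [List.take_zero, List.drop_zero, hR, true_and, if_true, one_mul]
      exact hQ k (by omega)
    · simp [hR]
  | succ L ih =>
    intro R k hk
    obtain ⟨k, rfl⟩ : ∃ j, k = j + 3 := ⟨k - 3, by omega⟩
    rw [card_split]
    push_cast
    simp only [List.take_succ_cons, List.drop_succ_cons]
    have e1 := ih (fun b => R (2 :: b)) (k + 1) (by omega)
    have e2 := ih (fun b => R (3 :: b)) k (by omega)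
    refine (add_le_add e1 e2).trans (le_of_eq ?_)
    rw [wt]
    have : ρ ≠ 0 := by linarith
    field_simp
    ring

open Classical in
theorem bad_le {ρ : ℝ} (h1 : 1 < ρ) (h3 : ρ ^ 3 = ρ + 1) (X : List ℕ) (hX : L23 X) (n : ℕ) :
    ∀ k : ℕ, 3 * (n * X.length) ≤ k →
      (((Wd k).filter fun w => ∀ t < n, (w.drop (t * X.length)).take X.length ≠ X).card : ℝ) ≤
        ρ ^ k * (1 - (ρ ^ X.sum)⁻¹) ^ n := by
  have hq : 0 ≤ 1 - (ρ ^ X.sum)⁻¹ := by
    have : (ρ ^ X.sum)⁻¹ ≤ 1 := inv_le_one_of_one_le₀ (one_le_pow₀ h1.le)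
    linarith
  induction n with
  | zero =>
    intro k _
    simp only [Nat.not_lt_zero, false_imp_iff, implies_true, Finset.filter_true, pow_zero, mul_one]
    exact card_le h1 h3 k
  | succ n ih =>
    intro k hk
    have e := block h1 (fun w => ∀ t < n, (w.drop (t * X.length)).take X.length ≠ X)
      (3 * (n * X.length)) ((1 - (ρ ^ X.sum)⁻¹) ^ n) (fun k hk => by convert ih k hk) X.length (fun b => b ≠ X) k
      (by linarith [add_mul n 1 X.length])
    have e2 : ρ ^ k * (wt ρ X.length (fun b => b ≠ X) * (1 - (ρ ^ X.sum)⁻¹) ^ n) ≤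
        ρ ^ k * (1 - (ρ ^ X.sum)⁻¹) ^ (n + 1) := by
      rw [pow_succ' (1 - (ρ ^ X.sum)⁻¹) n]
      have := wt_ne h1 h3 X hX
      gcongr
    refine le_trans ?_ (e.trans e2)
    have e3 : ((Wd k).filter fun w => ∀ t < n + 1, (w.drop (t * X.length)).take X.length ≠ X) ⊆
        ((Wd k).filter fun w => w.take X.length ≠ X ∧
          ∀ t < n, ((w.drop X.length).drop (t * X.length)).take X.length ≠ X) := by
      intro w hw
      rw [Finset.mem_filter] at hw ⊢
      refine ⟨hw.1, ?_, ?_⟩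
      · have := hw.2 0 (by omega)
        simpa using this
      · intro t ht
        have := hw.2 (t + 1) (by omega)
        rw [List.drop_drop]
        have e4 : X.length + t * X.length = (t + 1) * X.length := by ring
        rw [e4]
        exact this
    exact_mod_cast Finset.card_le_card e3

/-- LEMMA C (Cnt.lean) -/
theorem bad_count (X : List ℕ) (hX : L23 X) (hX1 : X ≠ []) : ∃ c : ℝ, 0 < c ∧ ∀ a n k : ℕ, 3 * (a + n * X.length) ≤ k →
    2 ≤ k → (((Wd k).filter fun w => ∀ t < n, (w.drop (a + t * X.length)).take X.length ≠ X).card : ℝ) ≤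
      4 * Real.exp (-(c * n)) * (Wd k).card := by
  classical
  obtain ⟨ρ, h1, h3, h4⟩ := exists_rho
  have hp : 0 < ρ := by linarith
  refine ⟨(ρ ^ X.sum)⁻¹, by positivity, fun a n k hk hk2 => ?_⟩
  have hq : 0 ≤ 1 - (ρ ^ X.sum)⁻¹ := by
    have : (ρ ^ X.sum)⁻¹ ≤ 1 := inv_le_one_of_one_le₀ (one_le_pow₀ h1.le)
    linarith
  have e := block h1 (fun w => ∀ t < n, (w.drop (t * X.length)).take X.length ≠ X)
      (3 * (n * X.length)) ((1 - (ρ ^ X.sum)⁻¹) ^ n) (fun k hk => by convert bad_le h1 h3 X hX n k hk) a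
      (fun _ => True) k (by linarith)
  have e1 : (((Wd k).filter fun w => ∀ t < n, (w.drop (a + t * X.length)).take X.length ≠ X).card : ℝ) ≤
      ρ ^ k * (1 - (ρ ^ X.sum)⁻¹) ^ n := by
    refine le_trans ?_ (e.trans ?_)
    · have e3 : ((Wd k).filter fun w => ∀ t < n, (w.drop (a + t * X.length)).take X.length ≠ X) ⊆
          ((Wd k).filter fun w => True ∧
            ∀ t < n, ((w.drop a).drop (t * X.length)).take X.length ≠ X) := by
        intro w hw
        rw [Finset.mem_filter] at hw ⊢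
        refine ⟨hw.1, trivial, ?_⟩
        intro t ht
        rw [List.drop_drop]
        exact hw.2 t ht
      exact_mod_cast Finset.card_le_card e3
    · have := wt_le h1 h3 a (fun _ => True)
      have h5 : wt ρ a (fun _ => True) * (1 - (ρ ^ X.sum)⁻¹) ^ n ≤ 1 * (1 - (ρ ^ X.sum)⁻¹) ^ n := by
        gcongr
      rw [one_mul] at h5
      gcongr
  have e2 : (1 - (ρ ^ X.sum)⁻¹) ^ n ≤ Real.exp (-((ρ ^ X.sum)⁻¹ * n)) := by
    have : 1 - (ρ ^ X.sum)⁻¹ ≤ Real.exp (-(ρ ^ X.sum)⁻¹) := by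
      have := Real.add_one_le_exp (-(ρ ^ X.sum)⁻¹)
      linarith
    calc (1 - (ρ ^ X.sum)⁻¹) ^ n ≤ Real.exp (-(ρ ^ X.sum)⁻¹) ^ n := by gcongr
      _ = Real.exp (-((ρ ^ X.sum)⁻¹ * n)) := by
        rw [← Real.exp_nat_mul]
        congr 1
        ring
  have e5 := card_ge h1 h3 k hk2
  have hexp := Real.exp_pos (-((ρ ^ X.sum)⁻¹ * n))
  have hc : (0 : ℝ) ≤ (Wd k).card := by positivity
  calc (((Wd k).filter fun w => ∀ t < n, (w.drop (a + t * X.length)).take X.length ≠ X).card : ℝ)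
      ≤ ρ ^ k * (1 - (ρ ^ X.sum)⁻¹) ^ n := e1
    _ ≤ (ρ ^ 4 * (Wd k).card) * Real.exp (-((ρ ^ X.sum)⁻¹ * n)) := by gcongr
    _ ≤ (4 * (Wd k).card) * Real.exp (-((ρ ^ X.sum)⁻¹ * n)) := by gcongr
    _ = 4 * Real.exp (-((ρ ^ X.sum)⁻¹ * n)) * (Wd k).card := by ring

end Pool.Agent.L5helper85.HW
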